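import Pool.Agent.Lib.APPS.Main3

/-!
Square-subdivision regularized LQG spheres converge to the quantum sphere. The statement also
records that the regularized field is the minimal-energy function, that the horizontal translations
solve the equation that defines them, that all the objects exist and that the limit law is a
probability law.
-/

namespace Pool.Agent.Results.MP_f00470_pr.Literal

open Pool.Agent.Lib.APPS MeasureTheory Set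
open scoped NNReal ENNReal

theorem result : Nonempty Met ∧ (∃ θ, IsMoll θ) ∧
    (∀ (g : Met) (Q : ℝ) (h : Dy → ℝ),
      (∀ f, g.IsMin (partF Q h) h f ↔ f = g.krig (partF Q h) h) ∧
      ∀ z, Exact ((g.volg Q h).map fun w => toCyl (w - z))) ∧
    ∀ γ ∈ Ioo (0 : ℝ) 2,
    (∀ θ, IsMoll θ → ∃ (Ω : Type) (_ : MeasurableSpace Ω) (P : Measure Ω)
      (B₁ B₂ : ℝ≥0 → Ω → ℝ) (L : Cyl × ℕ → Ω → ℝ) (μ : Ω → Measure Cyl), QS γ θ P B₁ B₂ L μ ∧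
      (∀ᵐ ω ∂P, μ ω univ ≠ ∞) ∧ 0 < ∫ ω, (μ ω univ).toReal ^ (4 / γ ^ 2 - 1) ∂P) ∧
    (∀ θ, IsMoll θ → ∀ (Ω : Type) [MeasurableSpace Ω] (P : Measure Ω)
      (B₁ B₂ : ℝ≥0 → Ω → ℝ) (L : Cyl × ℕ → Ω → ℝ) (μ : Ω → Measure Cyl), QS γ θ P B₁ B₂ L μ →
      ∀ᵐ ω ∂P, ∀ V : ℝ,
        (ENNReal.ofReal (V / (μ ω univ).toReal) • μ ω) univ = ENNReal.ofReal V ∧
        Exact (ENNReal.ofReal (V / (μ ω univ).toReal) • μ ω)) ∧
    ∀ g : Met,
      (∃ (Ω : Type) (_ : MeasurableSpace Ω) (P : Measure Ω) (h : Dy → Ω → ℝ), CG h P g.cov) ∧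
      ∃ V : ℝ, 1 / 2 < V ∧ ∀ a ∈ Ioo 0 V, Conv γ g V a :=
  ⟨st_EXM.1, ⟨_, st_EXM.2.1⟩, lit_min, fun γ hγ =>
    ⟨qs_exists γ hγ, lit_qs γ hγ, fun g => ⟨st_EXM.2.2 g, main_conv γ hγ g⟩⟩⟩

end Pool.Agent.Results.MP_f00470_pr.Literal
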